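import Pool.Agent.Lib.MP_92e372_an.Gen.Main

set_option autoImplicit false

namespace Pool.Agent.Lib.MP_92e372_an.Variants.BanachDomain

open Pool.Agent.Lib.MP_92e372_an.Gen in
/-- Let `A` be a unital complex Banach algebra (for instance a unital C*-algebra) and `B` a unital
C*-algebra. Every surjective unital linear map `φ : A → B` that sends invertible elements to
invertible elements is a Jordan homomorphism. No continuity is assumed. -/
theorem result {A B : Type*} [NormedRing A] [NormedAlgebra ℂ A] [CompleteSpace A]
    [CStarAlgebra B] (φ : A →ₗ[ℂ] B) (hs : Function.Surjective φ) (h1 : φ 1 = 1)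
    (hu : ∀ a : A, IsUnit a → IsUnit (φ a)) (a : A) : φ (a ^ 2) = φ a ^ 2 := by
  rcases subsingleton_or_nontrivial B with hB | hB
  · exact Subsingleton.elim _ _
  · rw [sq, sq]
    exact sq_general ⟨φ, continuous_of_preserves φ hs h1 hu⟩ hs h1 hu a

/-- The case of the problem file: both algebras are unital C*-algebras. -/
example {A B : Type*} [CStarAlgebra A] [CStarAlgebra B] (φ : A →ₗ[ℂ] B)
    (hs : Function.Surjective φ) (h1 : φ 1 = 1) (hu : ∀ a : A, IsUnit a → IsUnit (φ a)) (a : A) :
    φ (a ^ 2) = φ a ^ 2 := result φ hs h1 hu a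

end Pool.Agent.Lib.MP_92e372_an.Variants.BanachDomain
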